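import Mathlib
import Pool.Agent.Results.MP_788af2_nt.BinaryFormFamilies
import Pool.Agent.V11287.SA.BC2
import Pool.Agent.V11287.SA.Cop

/-!
# The average rank along almost every direction

The curves `y² = x (x - F_0 (u, w)) (x - F_1 (u, w))` given by split binary forms, as in
`BinaryFormFamilies`. Let `κ > 0`. For every sequence of scales `v_n > 1` with
`v_(n+1) ≥ v_n ^ (1 + κ)` (it may grow arbitrarily fast) and almost every `(α, β)`, the average of the
ranks of the curves with `(u, w) = (⌊α v_n⌋, ⌊β v_n⌋)` coprime is bounded, and the upper density of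
the curves of rank at least `r` among them is at most `C / 2 ^ r`, where `C` depends on the family and
on `κ` only, not on the direction and the scales; the coprime pairs have positive lower density.
-/

set_option autoImplicit false

namespace Pool.Agent.Results.MP_788af2_nt.AverageAlongDirections

open Finset Filter MeasureTheory

open Pool.Agent.Results.MP_788af2_nt.BinaryFormFamilies (E F)

/-- every term is greater than one and at least the power `1 + κ` of the preceding term -/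
def Fast (κ : ℝ) (v : ℕ → ℝ) : Prop := (∀ n, 1 < v n) ∧ ∀ n, v n ^ (1 + κ) ≤ v (n + 1)

/-- the pair `(⌊α v⌋, ⌊β v⌋)`, for `x = (α, β)` -/
noncomputable def point (x : ℝ × ℝ) (v : ℝ) : ℤ × ℤ := (⌊x.1 * v⌋, ⌊x.2 * v⌋)

/-- `t = (u, w)` is a coprime pair with `F_k (u, w) ≠ 0` for `k = 0, 1, 2` -/
def Admissible {n : ℕ} (l : Fin 3 × Fin n → ℤ × ℤ) (m : Fin 3 × Fin n → ℕ) (a : Fin 3 → ℤ)
    (t : ℤ × ℤ) : Prop := IsCoprime t.1 t.2 ∧ ∀ k, F l m a k t.1 t.2 ≠ 0

/-- the Mordell–Weil rank of `y² = x (x - F_0 (u, w)) (x - F_1 (u, w))`, `t = (u, w)` -/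
noncomputable def rank {n : ℕ} (l : Fin 3 × Fin n → ℤ × ℤ) (m : Fin 3 × Fin n → ℕ)
    (a : Fin 3 → ℤ) (t : ℤ × ℤ) : ℕ :=
  Module.finrank ℤ (E (F l m a 0 t.1 t.2) (F l m a 1 t.1 t.2)).toAffine.Point

open Classical in
/-- the number of the `j < N` for which the `j`-th pair is admissible -/
noncomputable def number {n : ℕ} (l : Fin 3 × Fin n → ℤ × ℤ) (m : Fin 3 × Fin n → ℕ)
    (a : Fin 3 → ℤ) (t : ℕ → ℤ × ℤ) (N : ℕ) : ℕ :=
  ((range N).filter (fun j => Admissible l m a (t j))).card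

open Classical in
/-- the sum of the ranks over the `j < N` for which the `j`-th pair is admissible -/
noncomputable def rankSum {n : ℕ} (l : Fin 3 × Fin n → ℤ × ℤ) (m : Fin 3 × Fin n → ℕ)
    (a : Fin 3 → ℤ) (t : ℕ → ℤ × ℤ) (N : ℕ) : ℝ :=
  ∑ j ∈ (range N).filter (fun j => Admissible l m a (t j)), (rank l m a (t j) : ℝ)

open Classical in
/-- the number of the `j < N` for which the `j`-th pair is admissible, with rank at least `r` -/
noncomputable def largeRank {n : ℕ} (l : Fin 3 × Fin n → ℤ × ℤ) (m : Fin 3 × Fin n → ℕ)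
    (a : Fin 3 → ℤ) (t : ℕ → ℤ × ℤ) (r N : ℕ) : ℕ :=
  ((range N).filter (fun j => Admissible l m a (t j) ∧ r ≤ rank l m a (t j))).card

lemma logb_le_self {x : ℝ} (hx : 1 ≤ x) : Real.logb 2 x ≤ x := by
  rw [Real.logb, div_le_iff₀ (Real.log_pos (by norm_num))]
  have h1 := Real.log_le_sub_one_of_pos (show 0 < x / 2 by positivity)
  rw [Real.log_div (by positivity) (by norm_num)] at h1
  have h2 := Real.log_two_gt_d9
  nlinarith

open Classical in
/-- sums of ranks and large ranks, compared with `N` -/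
theorem core (n : ℕ) (hn : Even n) (l : Fin 3 × Fin n → ℤ × ℤ) (m : Fin 3 × Fin n → ℕ)
    (hm : ∀ j, Odd (m j)) (a : Fin 3 → ℤ) (ha : ∀ k, a k ≠ 0)
    (hl : ∀ i j, i ≠ j → (l i).1 * (l j).2 ≠ (l j).1 * (l i).2)
    (hF : ∀ u v : ℤ, F l m a 0 u v - F l m a 1 u v = F l m a 2 u v) (κ : ℝ) (hκ : 0 < κ) :
    ∃ C : ℝ, 0 < C ∧ ∀ v : ℕ → ℝ, Fast κ v → ∀ᵐ x : ℝ × ℝ,
      (∀ᶠ N : ℕ in atTop, rankSum l m a (fun j => point x (v j)) N ≤ C * N) ∧
      ∀ r : ℕ, ∀ᶠ N : ℕ in atTop,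
        (largeRank l m a (fun j => point x (v j)) r N : ℝ) ≤ C * N / 2 ^ r := by
  obtain ⟨L, hL⟩ := Pool.Agent.V11287.SA.exists_L hκ
  obtain ⟨C₀, hC₀⟩ := BinaryFormFamilies.result n hn l m hm a ha hl hF L
  obtain ⟨C₁, hC₁⟩ : ∃ C₁ : ℝ, C₁ = |C₀| + 1 := ⟨_, rfl⟩
  have h01 : C₀ ≤ C₁ := by rw [hC₁]; exact (le_abs_self C₀).trans (by linarith)
  have h1 : 0 < C₁ := by rw [hC₁]; positivity
  have hcv : ∀ (U : ℤ) (M : ℕ), |U| ≤ (M : ℤ) ^ L → U.natAbs ≤ M ^ L := by
    intro U M h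
    rw [← Int.natCast_natAbs] at h
    exact_mod_cast h
  have hbd : ∀ (U V : ℤ) (M : ℕ), 1 ≤ M → |U| ≤ (M : ℤ) ^ L → |V| ≤ (M : ℤ) ^ L →
      ∑ t ∈ (Ioc U (U + M) ×ˢ Ioc V (V + M)).filter (fun t => Admissible l m a t),
        (2 : ℝ) ^ rank l m a t ≤ C₁ * (M : ℝ) ^ 2 := by
    intro U V M hM hU hV
    have h2 := hC₀ M U V hM (hcv U M hU) (hcv V M hV)
    refine le_trans (le_of_eq ?_) (h2.trans (mul_le_mul_of_nonneg_right h01 (by positivity)))
    refine Finset.sum_congr ?_ fun t _ => rfl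
    ext t
    simp only [Finset.mem_filter]
    rfl
  refine ⟨2 * (C₁ + 2), by positivity, fun v hv => ?_⟩
  -- averages
  obtain ⟨g, hg⟩ : ∃ g : ℤ × ℤ → ℝ, g = fun t =>
    if Admissible l m a t then (rank l m a t : ℝ) else 0 := ⟨_, rfl⟩
  have hsum : ∀ (U V : ℤ) (M : ℕ), 1 ≤ M → |U| ≤ (M : ℤ) ^ L → |V| ≤ (M : ℤ) ^ L →
      ∑ t ∈ Ioc U (U + M) ×ˢ Ioc V (V + M), (2 : ℝ) ^ (g t) ≤ (C₁ + 1) * (M : ℝ) ^ 2 := by
    intro U V M hM hU hV
    have h2 := hbd U V M hM hU hV
    have h3 : ∀ t ∈ Ioc U (U + M) ×ˢ Ioc V (V + M), (2 : ℝ) ^ (g t) ≤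
        (if Admissible l m a t then (2 : ℝ) ^ rank l m a t else 0) + 1 := by
      intro t _
      rw [hg]
      by_cases ht : Admissible l m a t
      · simp only [if_pos ht]
        rw [Real.rpow_natCast]
        linarith
      · simp only [if_neg ht, Real.rpow_zero]
        linarith
    refine (sum_le_sum h3).trans ?_
    rw [sum_add_distrib, ← sum_filter, sum_const, card_product, Int.card_Ioc, Int.card_Ioc,
      nsmul_eq_mul, mul_one, add_sub_cancel_left, add_sub_cancel_left, Int.toNat_natCast,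
      Nat.cast_mul]
    nlinarith
  have hA := Pool.Agent.V11287.SA.avg2 g hκ (C := C₁ + 1) (R := C₁ + 2) (by positivity)
    (by linarith) L 1 hL hsum v hv.1 hv.2
  -- tails
  have hT : ∀ r : ℕ, ∀ᵐ x : ℝ × ℝ, ∀ᶠ N : ℕ in atTop,
      (largeRank l m a (fun j => point x (v j)) r N : ℝ) ≤ 2 * (C₁ + 2) * N / 2 ^ r := by
    intro r
    have h5 := Pool.Agent.V11287.SA.tail2
      (fun t => Admissible l m a t ∧ r ≤ rank l m a t) hκ (ρ := C₁ / 2 ^ r) (by positivity)
      L 1 hL (by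
        intro U V M hM hU hV
        have h2 := hbd U V M hM hU hV
        rw [div_mul_eq_mul_div, le_div_iff₀ (by positivity)]
        refine le_trans ?_ h2
        have hsub : (Ioc U (U + M) ×ˢ Ioc V (V + M)).filter
            (fun t => Admissible l m a t ∧ r ≤ rank l m a t) ⊆
            (Ioc U (U + M) ×ˢ Ioc V (V + M)).filter (fun t => Admissible l m a t) := by
          intro t ht
          rw [mem_filter] at ht ⊢
          exact ⟨ht.1, ht.2.1⟩
        refine le_trans ?_ (sum_le_sum_of_subset_of_nonneg hsub (fun _ _ _ => by positivity))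
        rw [← nsmul_eq_mul]
        refine card_nsmul_le_sum _ _ _ fun t ht => ?_
        obtain ⟨_, _, h6⟩ := mem_filter.1 ht
        exact pow_le_pow_right₀ (by norm_num) h6) v hv.1 hv.2
    filter_upwards [h5] with x hx
    filter_upwards [hx] with N hN
    have h6 : largeRank l m a (fun j => point x (v j)) r N =
        ((range N).filter (fun j => Admissible l m a (Pool.Agent.V11287.SA.fl2 (v j) x) ∧
          r ≤ rank l m a (Pool.Agent.V11287.SA.fl2 (v j) x))).card := by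
      unfold largeRank
      refine congrArg Finset.card ?_
      ext j
      simp only [mem_filter]
      rfl
    rw [h6]
    refine hN.trans ?_
    rw [mul_div_assoc', div_mul_eq_mul_div]
    gcongr
    linarith
  filter_upwards [hA, ae_all_iff.2 hT] with x h2 h3
  refine ⟨?_, h3⟩
  filter_upwards [h2] with N hN
  have h6 : rankSum l m a (fun j => point x (v j)) N =
      ∑ j ∈ range N, g (Pool.Agent.V11287.SA.fl2 (v j) x) := by
    unfold rankSum
    rw [sum_filter]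
    refine sum_congr rfl fun j _ => ?_
    rw [hg]
    by_cases h : Admissible l m a (point x (v j))
    · rw [if_pos h]
      have h' : Admissible l m a (Pool.Agent.V11287.SA.fl2 (v j) x) := h
      simp only [if_pos h']
      rfl
    · rw [if_neg h]
      have h' : ¬ Admissible l m a (Pool.Agent.V11287.SA.fl2 (v j) x) := h
      simp only [if_neg h']
  rw [h6]
  refine hN.trans (mul_le_mul_of_nonneg_right ?_ (Nat.cast_nonneg _))
  refine (logb_le_self (by linarith)).trans (by linarith)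


lemma ae_form (p q : ℤ) (h : ¬ (p = 0 ∧ q = 0)) :
    ∀ᵐ x : ℝ × ℝ, (p : ℝ) * x.1 + (q : ℝ) * x.2 ≠ 0 := by
  let f : ℝ × ℝ →ₗ[ℝ] ℝ := (p : ℝ) • LinearMap.fst ℝ ℝ ℝ + (q : ℝ) • LinearMap.snd ℝ ℝ ℝ
  have hf : ∀ x : ℝ × ℝ, f x = (p : ℝ) * x.1 + (q : ℝ) * x.2 := fun x => rfl
  have hne : LinearMap.ker f ≠ ⊤ := by
    intro h1
    apply h
    have a1 : f (1, 0) = 0 := by
      have : ((1, 0) : ℝ × ℝ) ∈ LinearMap.ker f := by rw [h1]; trivial
      exact this
    have a2 : f (0, 1) = 0 := by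
      have : ((0, 1) : ℝ × ℝ) ∈ LinearMap.ker f := by rw [h1]; trivial
      exact this
    rw [hf] at a1 a2
    simp only [mul_one, mul_zero, add_zero, zero_add] at a1 a2
    exact ⟨by exact_mod_cast a1, by exact_mod_cast a2⟩
  have h0 := Measure.addHaar_submodule (volume : Measure (ℝ × ℝ)) (LinearMap.ker f) hne
  rw [ae_iff]
  refine measure_mono_null (fun x hx => ?_) h0
  simp only [Set.mem_setOf_eq, not_not] at hx
  show f x = 0
  rw [hf]
  exact hx

lemma form_ne {p q : ℤ} {x : ℝ × ℝ} (hx : (p : ℝ) * x.1 + (q : ℝ) * x.2 ≠ 0) {v : ℕ → ℝ}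
    (hv : Tendsto v atTop atTop) :
    ∀ᶠ j in atTop, p * (point x (v j)).1 + q * (point x (v j)).2 ≠ 0 := by
  have hc : 0 < |(p : ℝ) * x.1 + (q : ℝ) * x.2| := abs_pos.2 hx
  filter_upwards [hv.eventually_gt_atTop ((|(p : ℝ)| + |(q : ℝ)|) /
    |(p : ℝ) * x.1 + (q : ℝ) * x.2|), hv.eventually_ge_atTop 0] with j hj hj0 h
  rw [div_lt_iff₀ hc] at hj
  have h1 : (p : ℝ) * (⌊x.1 * v j⌋ : ℤ) + q * (⌊x.2 * v j⌋ : ℤ) = 0 := by exact_mod_cast h
  have e1 : |x.1 * v j - (⌊x.1 * v j⌋ : ℤ)| ≤ 1 := by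
    rw [abs_le]; constructor <;> linarith [Int.floor_le (x.1 * v j), Int.lt_floor_add_one (x.1 * v j)]
  have e2 : |x.2 * v j - (⌊x.2 * v j⌋ : ℤ)| ≤ 1 := by
    rw [abs_le]; constructor <;> linarith [Int.floor_le (x.2 * v j), Int.lt_floor_add_one (x.2 * v j)]
  have h2 : v j * ((p : ℝ) * x.1 + q * x.2) = p * (x.1 * v j - (⌊x.1 * v j⌋ : ℤ)) +
      q * (x.2 * v j - (⌊x.2 * v j⌋ : ℤ)) := by linarith
  have h3 : |v j * ((p : ℝ) * x.1 + q * x.2)| ≤ |(p : ℝ)| + |(q : ℝ)| := by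
    rw [h2]
    refine (abs_add_le _ _).trans ?_
    rw [abs_mul, abs_mul]
    exact add_le_add (mul_le_of_le_one_right (abs_nonneg _) e1)
      (mul_le_of_le_one_right (abs_nonneg _) e2)
  rw [abs_mul, abs_of_nonneg hj0] at h3
  linarith

open Classical in
/-- the admissible pairs have positive lower density -/
theorem density {n : ℕ} (l : Fin 3 × Fin n → ℤ × ℤ) (m : Fin 3 × Fin n → ℕ)
    (a : Fin 3 → ℤ) (ha : ∀ k, a k ≠ 0)
    (hl : ∀ i j, i ≠ j → (l i).1 * (l j).2 ≠ (l j).1 * (l i).2) (κ : ℝ) (hκ : 0 < κ)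
    (v : ℕ → ℝ) (hv : Fast κ v) :
    ∀ᵐ x : ℝ × ℝ, ∀ᶠ N : ℕ in atTop,
      (N : ℝ) / 10 ≤ number l m a (fun j => point x (v j)) N := by
  obtain ⟨L, hL⟩ := Pool.Agent.V11287.SA.exists_L hκ
  obtain ⟨M₀, hM₀⟩ := Pool.Agent.V11287.SA.noncoprime L
  have hvt := Pool.Agent.V11287.SA.tendsto_v hκ hv.1 hv.2
  have h1 := Pool.Agent.V11287.SA.avg2 (fun t => if ¬ IsCoprime t.1 t.2 then (1 : ℝ) else 0) hκ
    (C := 9 / 5) (R := 185 / 100) (by norm_num) (by norm_num) L M₀ hL
    (by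
      intro U V M hM hU hV
      have h1 : ∀ t : ℤ × ℤ, (2 : ℝ) ^ (if ¬ IsCoprime t.1 t.2 then (1 : ℝ) else 0) =
          1 + (if ¬ IsCoprime t.1 t.2 then (1 : ℝ) else 0) := by
        intro t
        split_ifs <;> norm_num
      rw [sum_congr rfl (fun t _ => h1 t), sum_add_distrib, ← sum_filter, sum_const, sum_const,
        card_product, Int.card_Ioc, Int.card_Ioc, nsmul_eq_mul, nsmul_eq_mul, mul_one, mul_one,
        add_sub_cancel_left, add_sub_cancel_left, Int.toNat_natCast, Nat.cast_mul]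
      have := hM₀ U V M hM hU hV
      nlinarith) v hv.1 hv.2
  have hlog : Real.logb 2 (185 / 100) ≤ 89 / 100 := by
    rw [Real.logb_le_iff_le_rpow (by norm_num) (by norm_num)]
    have h2 : ((185 / 100 : ℝ)) ^ (100 : ℕ) ≤ ((2 : ℝ) ^ (89 / 100 : ℝ)) ^ (100 : ℕ) := by
      rw [← Real.rpow_natCast ((2 : ℝ) ^ (89 / 100 : ℝ)), ← Real.rpow_mul (by norm_num)]
      have : (89 / 100 : ℝ) * ((100 : ℕ) : ℝ) = ((89 : ℕ) : ℝ) := by norm_num
      rw [this, Real.rpow_natCast]
      norm_num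
    exact le_of_pow_le_pow_left₀ (by norm_num) (by positivity) h2
  have hne : ∀ i, ¬ ((l i).1 = 0 ∧ (l i).2 = 0) := by
    rintro ⟨k, i⟩ ⟨h2, h3⟩
    have h4 : ((k, i) : Fin 3 × Fin n) ≠ (k + 1, i) := by
      intro h
      have h5 : k = k + 1 := congrArg Prod.fst h
      fin_cases k <;> simp at h5
    apply hl _ _ h4
    rw [h2, h3]
    ring
  have h5 : ∀ᵐ x : ℝ × ℝ, ∀ i, ((l i).1 : ℝ) * x.1 + ((l i).2 : ℝ) * x.2 ≠ 0 :=
    ae_all_iff.2 fun i => ae_form _ _ (hne i)
  filter_upwards [h1, h5] with x hx1 hx2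
  have h6 : ∀ᶠ j in atTop, ∀ k, F l m a k (point x (v j)).1 (point x (v j)).2 ≠ 0 := by
    have h7 : ∀ᶠ j in atTop, ∀ i, (l i).1 * (point x (v j)).1 + (l i).2 * (point x (v j)).2 ≠ 0 :=
      eventually_all.2 fun i => form_ne (hx2 i) hvt
    filter_upwards [h7] with j hj k
    unfold F
    exact mul_ne_zero (ha k) (prod_ne_zero_iff.2 fun i _ => pow_ne_zero _ (hj (k, i)))
  obtain ⟨j₀, hj₀⟩ := eventually_atTop.1 h6
  filter_upwards [hx1, eventually_ge_atTop (100 * j₀)] with N hN hN2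
  have h8 : (range N) ⊆ ((range N).filter (fun j => Admissible l m a (point x (v j)))) ∪
      (range j₀ ∪ (range N).filter (fun j => ¬ IsCoprime (point x (v j)).1 (point x (v j)).2)) := by
    intro j hj
    rw [mem_union, mem_union, mem_filter, mem_filter, mem_range (n := j₀)]
    by_cases hc : IsCoprime (point x (v j)).1 (point x (v j)).2
    · by_cases hj2 : j < j₀
      · exact Or.inr (Or.inl hj2)
      · exact Or.inl ⟨hj, hc, hj₀ j (by omega)⟩
    · exact Or.inr (Or.inr ⟨hj, hc⟩)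
  have h9 := (card_le_card h8).trans ((card_union_le _ _).trans
    (Nat.add_le_add_left (card_union_le _ _) _))
  rw [card_range, card_range] at h9
  have h10 : (((range N).filter
      (fun j => ¬ IsCoprime (point x (v j)).1 (point x (v j)).2)).card : ℝ) ≤ 89 / 100 * N := by
    have h11 : (((range N).filter
        (fun j => ¬ IsCoprime (point x (v j)).1 (point x (v j)).2)).card : ℝ) =
        ∑ j ∈ range N, (if ¬ IsCoprime (Pool.Agent.V11287.SA.fl2 (v j) x).1
          (Pool.Agent.V11287.SA.fl2 (v j) x).2 then (1 : ℝ) else 0) := by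
      rw [← sum_filter, sum_const, nsmul_eq_mul, mul_one]
      rfl
    rw [h11]
    exact hN.trans (mul_le_mul_of_nonneg_right hlog (Nat.cast_nonneg _))
  have h12 : (N : ℝ) ≤ number l m a (fun j => point x (v j)) N + (j₀ + (((range N).filter
      (fun j => ¬ IsCoprime (point x (v j)).1 (point x (v j)).2)).card : ℝ)) := by
    unfold number
    exact_mod_cast h9
  have h13 : (100 : ℝ) * j₀ ≤ N := by exact_mod_cast hN2
  linarith

/-- **Theorem.** Let `n` be even, `l` pairwise non-proportional linear forms, `m` odd exponents,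
`a_k ≠ 0`, and `F_0 - F_1 = F_2`, as in `BinaryFormFamilies`. For every `κ > 0` there is `C` such that
for every sequence of real numbers `v_j > 1` with `v_(j+1) ≥ v_j ^ (1 + κ)` and almost all
`(α, β)` in the plane the following holds for the curves
`E_j : y² = x (x - F_0 (u_j, w_j)) (x - F_1 (u_j, w_j))`, `(u_j, w_j) = (⌊α v_j⌋, ⌊β v_j⌋)`, where `j` is
admissible if `u_j`, `w_j` are coprime and `F_k (u_j, w_j) ≠ 0`.
(0) For all large `N` at least `N / 10` of the `j < N` are admissible.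
(1) For all large `N` the average of the ranks of the `E_j`, `j < N` admissible, is at most `C`.
(2) For every `r` and all large `N` at most the proportion `C / 2 ^ r` of the `E_j`, `j < N`
admissible, have rank at least `r`. -/
theorem result (n : ℕ) (hn : Even n) (l : Fin 3 × Fin n → ℤ × ℤ) (m : Fin 3 × Fin n → ℕ)
    (hm : ∀ j, Odd (m j)) (a : Fin 3 → ℤ) (ha : ∀ k, a k ≠ 0)
    (hl : ∀ i j, i ≠ j → (l i).1 * (l j).2 ≠ (l j).1 * (l i).2)
    (hF : ∀ u v : ℤ, F l m a 0 u v - F l m a 1 u v = F l m a 2 u v) (κ : ℝ) (hκ : 0 < κ) :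
    ∃ C : ℝ, ∀ v : ℕ → ℝ, Fast κ v → ∀ᵐ x : ℝ × ℝ,
      (∀ᶠ N : ℕ in atTop, (N : ℝ) / 10 ≤ number l m a (fun j => point x (v j)) N) ∧
      (∀ᶠ N : ℕ in atTop, rankSum l m a (fun j => point x (v j)) N ≤
        C * number l m a (fun j => point x (v j)) N) ∧
      ∀ r : ℕ, ∀ᶠ N : ℕ in atTop, (largeRank l m a (fun j => point x (v j)) r N : ℝ) ≤
        C * number l m a (fun j => point x (v j)) N / 2 ^ r := by
  obtain ⟨C, hC, h⟩ := core n hn l m hm a ha hl hF κ hκ
  refine ⟨10 * C, fun v hv => ?_⟩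
  filter_upwards [h v hv, density l m a ha hl κ hκ v hv] with x hx hd
  refine ⟨hd, ?_, fun r => ?_⟩
  · filter_upwards [hx.1, hd] with N h1 h2
    nlinarith
  · filter_upwards [hx.2 r, hd] with N h1 h2
    refine h1.trans ?_
    gcongr ?_ / 2 ^ r
    nlinarith

end Pool.Agent.Results.MP_788af2_nt.AverageAlongDirections
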