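import Mathlib
import Pool.Agent.V1166.WI.Any
import Pool.Agent.V1166.WI.Ell
import Pool.Agent.Results.MP_157626_nt.TwistFamilyMoments

/-!
# The mean values of `2 ^ (m rank)` over the quadratic twists in windows of ANY length

Let `E : y² = x³ + A x + B` have three integer roots and let `D ≠ 0` be a polynomial (for instance
`D(t) = t`). Let `v n ≥ 1` be any sequence. For almost every real `α`, all `m`, all `ε > 0` and all
large `n`, for ALL `1 ≤ H ≤ v n` the mean value of the `m`-th power of the order of the 2-Selmer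
group (and of `2 ^ (m rank)`) of the twists of `E` by `D(t)` over the integers `t` of the window
`|t - α v n| ≤ H` is at most `(n (1 + log (v n))) ^ ε`.
-/

set_option autoImplicit false

namespace Pool.Agent.Results.MP_788af2_nt.TwistsInAllWindows

open MeasureTheory Filter Finset Polynomial

open Pool.Agent.Results.MP_157626_nt.TwistFamilyMoments (Sel2 sel)

/-- the rank of the quadratic twist of `y² = x³ + A x + B` by `d` -/
noncomputable def rkTwist (A B d : ℤ) : ℕ :=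
  Pool.Agent.Results.MP_157626_nt.TwistFamilyMoments.rk A B d

/-- the number of the integers of a window -/
lemma card_window (c r : ℝ) (hr : 1 ≤ r) (F : Finset ℤ) (hF : ∀ q ∈ F, |(q : ℝ) - c| ≤ r) :
    (F.card : ℝ) ≤ 3 * r := by
  have h1 : F.card ≤ (Icc ⌈c - r⌉ ⌊c + r⌋).card := by
    refine card_le_card fun q hq => ?_
    obtain ⟨g1, g2⟩ := abs_le.1 (hF q hq)
    exact mem_Icc.2 ⟨Int.ceil_le.2 (by linarith), Int.le_floor.2 (by linarith)⟩
  rw [Int.card_Icc] at h1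
  have h2 : ((⌊c + r⌋ + 1 - ⌈c - r⌉).toNat : ℝ) ≤ 2 * r + 1 := by
    have h3 : (⌊c + r⌋ : ℝ) ≤ c + r := Int.floor_le _
    have h4 : c - r ≤ (⌈c - r⌉ : ℝ) := Int.le_ceil _
    rcases le_or_gt 0 (⌊c + r⌋ + 1 - ⌈c - r⌉) with h5 | h5
    · have h6 : (((⌊c + r⌋ + 1 - ⌈c - r⌉).toNat : ℤ) : ℝ) = ((⌊c + r⌋ + 1 - ⌈c - r⌉ : ℤ) : ℝ) := by
        rw [Int.toNat_of_nonneg h5]
      rw [Int.cast_natCast] at h6
      rw [h6]
      push_cast
      linarith
    · rw [Int.toNat_of_nonpos h5.le]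
      push_cast
      linarith
  have h3 : (F.card : ℝ) ≤ ((⌊c + r⌋ + 1 - ⌈c - r⌉).toNat : ℝ) := by exact_mod_cast h1
  linarith

/-- one moment -/
lemma one_moment {P : ℤ → Prop} {w : ℤ → ℝ} (hw : ∀ t, P t → 0 ≤ w t) {k : ℕ}
    (h : Pool.Agent.V1166.WI.Avg P (fun t => w t ^ (k + 1)) 1) {v : ℕ → ℝ} (hv1 : ∀ n, 1 ≤ v n)
    (R : ℕ) :
    ∀ᵐ α : ℝ, |α| ≤ R → ∀ᶠ n : ℕ in atTop, ∀ H : ℝ, 1 ≤ H → H ≤ v n →
      ∀ S : Finset ℤ, (∀ D ∈ S, P D ∧ |(D : ℝ) - α * v n| ≤ H) →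
        ∑ D ∈ S, w D ^ (k + 1) ≤ H * (((n : ℝ) + 1) ^ 2 * (1 + Real.log (v n))) := by
  classical
  obtain ⟨K, hK⟩ := h
  set u : ℤ → ℝ := fun D => if P D then w D ^ (k + 1) else 0 with hu
  have hu0 : ∀ D, 0 ≤ u D := by
    intro D
    rw [hu]
    dsimp only
    split_ifs with hP
    · exact pow_nonneg (hw D hP) _
    · exact le_rfl
  have htot : ∀ N : ℕ, 1 ≤ N → ∑ D ∈ Icc (-(N : ℤ)) N, u D ≤ 3 * |K| * N := by
    intro N hN
    have h1 := hK ((Icc (-(N : ℤ)) N).filter P) (-(N : ℤ) - 1) (2 * N + 1) (by omega)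
      (by rw [pow_one, abs_le]; push_cast; constructor <;> omega) (fun t ht => by
        obtain ⟨g1, g2⟩ := mem_filter.1 ht
        rw [mem_Icc] at g1
        refine ⟨by omega, by push_cast; omega, g2⟩)
    rw [hu, ← sum_filter]
    refine h1.trans ?_
    have hN1 : (1 : ℝ) ≤ N := by exact_mod_cast hN
    push_cast
    calc K * (2 * (N : ℝ) + 1) ≤ |K| * (3 * N) :=
          mul_le_mul (le_abs_self K) (by linarith) (by positivity) (abs_nonneg _)
      _ = _ := by ring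
  set G : ℕ → ℤ → ℝ := fun N t => ∑ D ∈ Icc (-(N : ℤ)) N, u D * (1 / (1 + |(D : ℝ) - t|)) with hG
  have hG0 : ∀ N t, 0 ≤ G N t := fun N t => sum_nonneg fun D _ => mul_nonneg (hu0 D) (by positivity)
  set N : ℕ → ℕ := fun n => ⌈((R : ℝ) + 3) * v n⌉₊ with hNdef
  have hR : (0 : ℝ) ≤ R := Nat.cast_nonneg R
  have hNle : ∀ n, ((R : ℝ) + 3) * v n ≤ N n ∧ (N n : ℝ) ≤ ((R : ℝ) + 4) * v n ∧ 1 ≤ N n := by
    intro n
    have h1 := hv1 n
    have h2 : ((R : ℝ) + 3) * v n ≤ N n := Nat.le_ceil _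
    have h3 : (N n : ℝ) < ((R : ℝ) + 3) * v n + 1 := Nat.ceil_lt_add_one (by positivity)
    refine ⟨h2, by linarith, ?_⟩
    have h4 : (0 : ℝ) < N n := lt_of_lt_of_le (by positivity) h2
    exact_mod_cast h4
  set c₀ : ℝ := 1 + Real.log (3 * ((R : ℝ) + 4)) with hc₀
  have hc0 : 0 < c₀ := by
    have : 0 ≤ Real.log (3 * ((R : ℝ) + 4)) := Real.log_nonneg (by linarith)
    rw [hc₀]
    linarith
  have hLv : ∀ n, 0 ≤ Real.log (v n) := fun n => Real.log_nonneg (hv1 n)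
  have hsum : ∀ n, ∑ t ∈ Icc (-(N n : ℤ)) (N n), G (N n) t ≤
      6 * |K| * ((R : ℝ) + 4) * c₀ * (v n * (1 + Real.log (v n))) := by
    intro n
    obtain ⟨g1, g2, g3⟩ := hNle n
    have hv0 : 0 < v n := by linarith [hv1 n]
    have hN1 : (1 : ℝ) ≤ N n := by exact_mod_cast g3
    have h1 : ∑ t ∈ Icc (-(N n : ℤ)) (N n), G (N n) t ≤
        ∑ D ∈ Icc (-(N n : ℤ)) (N n), u D * (2 * (1 + Real.log (2 * N n + 1))) := by
      rw [hG, sum_comm]
      refine sum_le_sum fun D hD => ?_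
      rw [← mul_sum]
      exact mul_le_mul_of_nonneg_left (Pool.Agent.V1166.WI.sum_inv (N n) D hD) (hu0 D)
    have h2 : 1 + Real.log (2 * N n + 1) ≤ c₀ * (1 + Real.log (v n)) := by
      have h3 : Real.log (2 * N n + 1) ≤ Real.log (3 * ((R : ℝ) + 4) * v n) := by
        refine Real.log_le_log (by positivity) ?_
        calc 2 * (N n : ℝ) + 1 ≤ 3 * N n := by linarith
          _ ≤ 3 * (((R : ℝ) + 4) * v n) := by linarith
          _ = _ := by ring
      rw [Real.log_mul (by positivity) (by positivity)] at h3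
      have h4 : 0 ≤ Real.log (3 * ((R : ℝ) + 4)) * Real.log (v n) :=
        mul_nonneg (Real.log_nonneg (by linarith)) (hLv n)
      rw [hc₀]
      nlinarith
    have h0 : (0 : ℝ) ≤ ∑ D ∈ Icc (-(N n : ℤ)) (N n), u D := sum_nonneg fun D _ => hu0 D
    have hl1 := hLv n
    rw [← sum_mul] at h1
    calc ∑ t ∈ Icc (-(N n : ℤ)) (N n), G (N n) t
        ≤ (∑ D ∈ Icc (-(N n : ℤ)) (N n), u D) * (2 * (1 + Real.log (2 * N n + 1))) := h1
      _ ≤ (∑ D ∈ Icc (-(N n : ℤ)) (N n), u D) * (2 * (c₀ * (1 + Real.log (v n)))) :=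
          mul_le_mul_of_nonneg_left (by linarith) h0
      _ ≤ (3 * |K| * N n) * (2 * (c₀ * (1 + Real.log (v n)))) :=
          mul_le_mul_of_nonneg_right (htot (N n) g3) (by positivity)
      _ ≤ (3 * |K| * (((R : ℝ) + 4) * v n)) * (2 * (c₀ * (1 + Real.log (v n)))) :=
          mul_le_mul_of_nonneg_right (mul_le_mul_of_nonneg_left g2 (by positivity)) (by positivity)
      _ = _ := by ring
  set B : ℕ → Finset ℤ := fun n => (Icc (-(N n : ℤ)) (N n)).filter
    (fun t => (2 / 5 : ℝ) * (((n : ℝ) + 1) ^ 2 * (1 + Real.log (v n))) < G (N n) t) with hB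
  set K' : ℝ := 5 / 2 * (6 * |K| * ((R : ℝ) + 4) * c₀) with hK'
  have hBcard : ∀ n, ((B n).card : ℝ) ≤ K' * (v n * (((n : ℝ) + 1) ^ 2)⁻¹) := by
    intro n
    have hv0 : 0 < v n := by linarith [hv1 n]
    have hl1 := hLv n
    have h1 : ((B n).card : ℝ) * ((2 / 5 : ℝ) * (((n : ℝ) + 1) ^ 2 * (1 + Real.log (v n)))) ≤
        ∑ t ∈ Icc (-(N n : ℤ)) (N n), G (N n) t := by
      rw [← nsmul_eq_mul]
      refine (card_nsmul_le_sum (B n) (G (N n)) _ fun t ht => (mem_filter.1 ht).2.le).trans ?_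
      exact sum_le_sum_of_subset_of_nonneg (filter_subset _ _) fun t _ _ => hG0 _ t
    have h2 := h1.trans (hsum n)
    have hq : (0 : ℝ) < ((n : ℝ) + 1) ^ 2 := by positivity
    have hq2 : (0 : ℝ) < 1 + Real.log (v n) := by linarith
    have h3 : (((B n).card : ℝ) * ((n : ℝ) + 1) ^ 2) * (1 + Real.log (v n)) ≤
        (K' * v n) * (1 + Real.log (v n)) := by
      rw [hK']
      linarith
    have h4 := le_of_mul_le_mul_right h3 hq2
    calc ((B n).card : ℝ) = (((B n).card : ℝ) * ((n : ℝ) + 1) ^ 2) * (((n : ℝ) + 1) ^ 2)⁻¹ := by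
          field_simp
      _ ≤ (K' * v n) * (((n : ℝ) + 1) ^ 2)⁻¹ := mul_le_mul_of_nonneg_right h4 (by positivity)
      _ = _ := by ring
  have hbc : ∀ᵐ α : ℝ, ∀ᶠ n : ℕ in atTop, ∀ t ∈ B n, 1 / v n < |α - (t : ℝ) / v n| := by
    refine Pool.Agent.V1166.WI.bc_balls B (fun n t => (t : ℝ) / v n) (fun n _ => 1 / v n) ?_ ?_
    · intro n t _
      have := hv1 n
      positivity
    · refine Summable.of_nonneg_of_le (fun n => ?_) (fun n => ?_)
        (((Real.summable_nat_pow_inv.2 one_lt_two).comp_injective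
          (add_left_injective 1)).mul_left (2 * K'))
      · have := hv1 n
        exact sum_nonneg fun _ _ => by positivity
      · have hv0 : 0 < v n := by linarith [hv1 n]
        rw [sum_const, nsmul_eq_mul]
        calc ((B n).card : ℝ) * (2 * (1 / v n)) ≤
              (K' * (v n * (((n : ℝ) + 1) ^ 2)⁻¹)) * (2 * (1 / v n)) :=
              mul_le_mul_of_nonneg_right (hBcard n) (by positivity)
          _ = 2 * K' * (((n : ℝ) + 1) ^ 2)⁻¹ := by
              field_simp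
          _ = _ := by
              simp [Function.comp]
  filter_upwards [hbc] with α hα hαR
  filter_upwards [hα] with n hn H hH1 hHv S hS
  have hv0 : 0 < v n := by linarith [hv1 n]
  obtain ⟨g1, g2, g3⟩ := hNle n
  set t : ℤ := round (α * v n) with ht
  have ht1 : |α * v n - t| ≤ 1 / 2 := abs_sub_round _
  have hav : |α * v n| ≤ R * v n := by
    rw [abs_mul, abs_of_pos hv0]
    exact mul_le_mul_of_nonneg_right hαR hv0.le
  have hin : ∀ D : ℤ, |(D : ℝ) - α * v n| ≤ v n + 1 → D ∈ Icc (-(N n : ℤ)) (N n) := by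
    intro D hD
    obtain ⟨a1, a2⟩ := abs_le.1 hD
    obtain ⟨a3, a4⟩ := abs_le.1 hav
    have hvn := hv1 n
    rw [mem_Icc]
    constructor
    · have : -(N n : ℝ) ≤ D := by linarith
      exact_mod_cast this
    · have : (D : ℝ) ≤ N n := by linarith
      exact_mod_cast this
  have htB : t ∉ B n := by
    intro hcon
    have h1 := hn t hcon
    have h2 : |α - (t : ℝ) / v n| ≤ 1 / v n := by
      rw [show α - (t : ℝ) / v n = (α * v n - t) / v n by
        field_simp, abs_div, abs_of_pos hv0]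
      exact div_le_div_of_nonneg_right (by linarith) hv0.le
    linarith
  have htI : t ∈ Icc (-(N n : ℤ)) (N n) := by
    refine hin t ?_
    rw [abs_sub_comm]
    linarith
  have hGt : G (N n) t ≤ (2 / 5 : ℝ) * (((n : ℝ) + 1) ^ 2 * (1 + Real.log (v n))) := by
    by_contra hcon
    exact htB (mem_filter.2 ⟨htI, not_le.1 hcon⟩)
  have hwin : ∀ D ∈ S, w D ^ (k + 1) ≤ (5 / 2 * H) * (u D * (1 / (1 + |(D : ℝ) - t|))) := by
    intro D hD
    obtain ⟨hP, h1⟩ := hS D hD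
    have hux : u D = w D ^ (k + 1) := by
      rw [hu]
      exact if_pos hP
    have h2 : |(D : ℝ) - t| ≤ H + 1 / 2 := by
      calc |(D : ℝ) - t| = |((D : ℝ) - α * v n) + (α * v n - t)| := by
            congr 1
            ring
        _ ≤ |(D : ℝ) - α * v n| + |α * v n - t| := abs_add_le _ _
        _ ≤ H + 1 / 2 := add_le_add h1 ht1
    have h3 : 1 + |(D : ℝ) - t| ≤ 5 / 2 * H := by linarith
    have h4 : 0 < 1 + |(D : ℝ) - t| := by positivity
    have h5 : 1 ≤ (5 / 2 * H) * (1 / (1 + |(D : ℝ) - t|)) := by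
      rw [mul_one_div, le_div_iff₀ h4, one_mul]
      exact h3
    calc w D ^ (k + 1) = u D * 1 := by rw [mul_one, hux]
      _ ≤ u D * ((5 / 2 * H) * (1 / (1 + |(D : ℝ) - t|))) := mul_le_mul_of_nonneg_left h5 (hu0 D)
      _ = _ := by ring
  calc ∑ D ∈ S, w D ^ (k + 1) ≤ ∑ D ∈ S, (5 / 2 * H) * (u D * (1 / (1 + |(D : ℝ) - t|))) :=
        sum_le_sum hwin
    _ = (5 / 2 * H) * ∑ D ∈ S, u D * (1 / (1 + |(D : ℝ) - t|)) := by rw [mul_sum]
    _ ≤ (5 / 2 * H) * G (N n) t := by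
        refine mul_le_mul_of_nonneg_left ?_ (by positivity)
        exact sum_le_sum_of_subset_of_nonneg (fun D hD => hin D (by linarith [(hS D hD).2]))
          fun D _ _ => mul_nonneg (hu0 D) (by positivity)
    _ ≤ (5 / 2 * H) * ((2 / 5 : ℝ) * (((n : ℝ) + 1) ^ 2 * (1 + Real.log (v n)))) :=
        mul_le_mul_of_nonneg_left hGt (by positivity)
    _ = _ := by ring

/-- all the moments are bounded -/
theorem means {P : ℤ → Prop} {w : ℤ → ℝ} (hw : ∀ t, P t → 0 ≤ w t)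
    (h : ∀ k : ℕ, Pool.Agent.V1166.WI.Avg P (fun t => w t ^ (k + 1)) 1) {v : ℕ → ℝ}
    (hv1 : ∀ n, 1 ≤ v n) :
    ∀ᵐ α : ℝ, ∀ ε : ℝ, 0 < ε → ∀ᶠ n : ℕ in atTop, ∀ H : ℝ, 1 ≤ H → H ≤ v n →
      ∀ S : Finset ℤ, (∀ D ∈ S, P D ∧ |(D : ℝ) - α * v n| ≤ H) →
        ∑ D ∈ S, w D ≤ H * ((n : ℝ) * (1 + Real.log (v n))) ^ ε := by
  classical
  filter_upwards [ae_all_iff.2 fun R : ℕ => ae_all_iff.2 fun k => one_moment hw (h k) hv1 R]
    with α hα ε hε
  obtain ⟨R, hR⟩ := exists_nat_ge |α|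
  obtain ⟨k, hk⟩ := exists_nat_one_div_lt (show (0 : ℝ) < ε / 4 by positivity)
  have hlim : ∀ᶠ n : ℕ in atTop, 3 * 2 ^ (ε / 2) ≤ (n : ℝ) ^ (ε / 2) :=
    ((tendsto_rpow_atTop (show 0 < ε / 2 by positivity)).comp
      tendsto_natCast_atTop_atTop).eventually_ge_atTop _
  filter_upwards [hα R k hR, hlim, eventually_ge_atTop 1] with n hn hl hn1 H hH1 hHv S hS
  have h1 := hn H hH1 hHv S hS
  have hn1' : (1 : ℝ) ≤ n := by exact_mod_cast hn1
  set X : ℝ := 1 + Real.log (v n) with hX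
  have hX1 : 1 ≤ X := by
    have := Real.log_nonneg (hv1 n)
    rw [hX]
    linarith
  have hcard := card_window (α * v n) H hH1 S fun q hq => (hS q hq).2
  have hnn : ∀ D ∈ S, 0 ≤ w D := fun D hD => hw D (hS D hD).1
  have h2 : (∑ D ∈ S, w D) ^ (k + 1) ≤ (3 * H) ^ (k + 1) * (((n : ℝ) + 1) ^ 2 * X) := by
    rcases S.eq_empty_or_nonempty with rfl | hne
    · rw [sum_empty, zero_pow (by omega)]
      positivity
    have hc0 : (0 : ℝ) < (S.card : ℝ) := by exact_mod_cast card_pos.2 hne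
    have h3 := pow_sum_div_card_le_sum_pow (s := S) (f := w) hnn k
    rw [div_le_iff₀ (by positivity)] at h3
    calc (∑ D ∈ S, w D) ^ (k + 1) ≤ (∑ D ∈ S, w D ^ (k + 1)) * (S.card : ℝ) ^ k := h3
      _ ≤ (H * (((n : ℝ) + 1) ^ 2 * X)) * (3 * H) ^ k :=
          mul_le_mul h1 (pow_le_pow_left₀ hc0.le hcard k) (by positivity) (by positivity)
      _ ≤ (3 * H * (((n : ℝ) + 1) ^ 2 * X)) * (3 * H) ^ k := by
          refine mul_le_mul_of_nonneg_right (mul_le_mul_of_nonneg_right ?_ (by positivity))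
            (by positivity)
          linarith
      _ = _ := by ring
  have hs0 : 0 ≤ ∑ D ∈ S, w D := sum_nonneg hnn
  have hkpos : (0 : ℝ) < (k : ℝ) + 1 := by positivity
  have h4 : ∑ D ∈ S, w D ≤ 3 * H * (((n : ℝ) + 1) ^ 2 * X) ^ ((1 : ℝ) / (k + 1)) := by
    have h5 : ∑ D ∈ S, w D = ((∑ D ∈ S, w D) ^ (k + 1)) ^ ((1 : ℝ) / (k + 1)) := by
      rw [← Real.rpow_natCast, ← Real.rpow_mul hs0]
      push_cast
      rw [mul_one_div_cancel (by positivity), Real.rpow_one]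
    rw [h5]
    refine (Real.rpow_le_rpow (by positivity) h2 (by positivity)).trans (le_of_eq ?_)
    rw [Real.mul_rpow (by positivity) (by positivity)]
    congr 1
    rw [← Real.rpow_natCast, ← Real.rpow_mul (by positivity)]
    push_cast
    rw [mul_one_div_cancel (by positivity), Real.rpow_one]
  have h6 : (((n : ℝ) + 1) ^ 2 * X) ^ ((1 : ℝ) / (k + 1)) ≤ (2 * (n * X)) ^ (ε / 2) := by
    have h7 : ((n : ℝ) + 1) ^ 2 * X ≤ (2 * (n * X)) ^ 2 := by
      have h8 : (n : ℝ) + 1 ≤ 2 * n := by linarith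
      calc ((n : ℝ) + 1) ^ 2 * X ≤ (2 * n) ^ 2 * X ^ 2 :=
            mul_le_mul (pow_le_pow_left₀ (by positivity) h8 2) (by nlinarith) (by positivity)
              (by positivity)
        _ = _ := by ring
    have h9 : (1 : ℝ) ≤ 2 * (n * X) := by nlinarith
    calc (((n : ℝ) + 1) ^ 2 * X) ^ ((1 : ℝ) / (k + 1)) ≤ ((2 * (n * X)) ^ 2) ^ ((1 : ℝ) / (k + 1)) :=
          Real.rpow_le_rpow (by positivity) h7 (by positivity)
      _ = (2 * (n * X)) ^ (2 * ((1 : ℝ) / (k + 1))) := by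
          rw [← Real.rpow_natCast (2 * ((n : ℝ) * X)) 2, ← Real.rpow_mul (by positivity)]
          norm_num
      _ ≤ _ := Real.rpow_le_rpow_of_exponent_le h9 (by linarith)
  have h10 : 3 * (2 * ((n : ℝ) * X)) ^ (ε / 2) ≤ (n * X) ^ ε := by
    have h11 : (n : ℝ) ^ (ε / 2) ≤ (n * X) ^ (ε / 2) :=
      Real.rpow_le_rpow (by positivity) (by nlinarith) (by positivity)
    have h12 : ((n : ℝ) * X) ^ ε = (n * X) ^ (ε / 2) * (n * X) ^ (ε / 2) := by
      rw [← Real.rpow_add (by positivity)]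
      congr 1
      ring
    rw [Real.mul_rpow (by norm_num) (by positivity), h12, ← mul_assoc]
    exact mul_le_mul_of_nonneg_right (hl.trans h11) (by positivity)
  calc ∑ D ∈ S, w D ≤ 3 * H * (((n : ℝ) + 1) ^ 2 * X) ^ ((1 : ℝ) / (k + 1)) := h4
    _ ≤ 3 * H * (2 * (n * X)) ^ (ε / 2) := mul_le_mul_of_nonneg_left h6 (by positivity)
    _ = H * (3 * (2 * (n * X)) ^ (ε / 2)) := by ring
    _ ≤ H * (n * X) ^ ε := mul_le_mul_of_nonneg_left h10 (by linarith)

/-- **Theorem.** Let `v n ≥ 1` be a sequence of real numbers. For almost all real `α`: for all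
nonsingular curves `E : y² = x³ + A x + B` with three integer roots, all polynomials `D ≠ 0` with
integer coefficients, all `m`, all `ε > 0` and all large `n`, for ALL `1 ≤ H ≤ v n` and every finite
set `S` of integers `t` with `D(t) ≠ 0` and `|t - α v n| ≤ H`, the 2-Selmer groups of the twists of `E`
by `D(t)`, `t ∈ S`, are finite, of order `sel A B (D t) ≥ 2 ^ rank`, and the sum of the `m`-th powers
of these orders over `S` is at most `H * (n * (1 + log (v n))) ^ ε`. -/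
theorem result (v : ℕ → ℝ) (hv : ∀ n, 1 ≤ v n) : ∀ᵐ α : ℝ,
    ∀ A B e₁ e₂ e₃ : ℤ, 4 * A ^ 3 + 27 * B ^ 2 ≠ 0 →
      (∀ x : ℤ, x ^ 3 + A * x + B = (x - e₁) * (x - e₂) * (x - e₃)) →
      ∀ D : ℤ[X], D ≠ 0 → ∀ (m : ℕ) (ε : ℝ), 0 < ε → ∀ᶠ n : ℕ in atTop,
        ∀ H : ℝ, 1 ≤ H → H ≤ v n → ∀ S : Finset ℤ,
          (∀ t ∈ S, D.eval t ≠ 0 ∧ |(t : ℝ) - α * v n| ≤ H) →
          (∀ t ∈ S, (Sel2 ((D.eval t) ^ 2 * A) ((D.eval t) ^ 3 * B)).Finite ∧
            2 ^ rkTwist A B (D.eval t) ≤ sel A B (D.eval t)) ∧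
          ∑ t ∈ S, (sel A B (D.eval t) : ℝ) ^ m ≤ H * ((n : ℝ) * (1 + Real.log (v n))) ^ ε := by
  classical
  have := Pool.Agent.V1166.WI.countable_poly
  rw [ae_all_iff]; intro A
  rw [ae_all_iff]; intro B
  rw [ae_all_iff]; intro e₁
  rw [ae_all_iff]; intro e₂
  rw [ae_all_iff]; intro e₃
  refine Pool.Agent.V1166.WI.ae_imp fun hE => Pool.Agent.V1166.WI.ae_imp fun he => ?_
  rw [ae_all_iff]; intro D
  refine Pool.Agent.V1166.WI.ae_imp fun hD => ?_
  rw [ae_all_iff]; intro m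
  have h1 := means (P := fun t => D.eval t ≠ 0)
    (w := fun t => ((Pool.Agent.W307.SE.SelR ((D.eval t) ^ 2 * A)
      ((D.eval t) ^ 3 * B)).ncard : ℝ) ^ m) (fun t _ => by positivity)
    (fun k => by
      have h2 := Pool.Agent.V1166.WI.avg_twist hE he D hD (m * (k + 1)) 1
      simp only [pow_mul] at h2
      exact h2) hv
  filter_upwards [h1] with α hα ε hε
  filter_upwards [hα ε hε] with n hn H hH1 hHv S hS
  refine ⟨fun t ht => ?_, hn H hH1 hHv S hS⟩
  have h2 := (Pool.Agent.TH639.SL.sel_tw hE he (hS t ht).1).1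
  refine ⟨h2, ?_⟩
  exact Pool.Agent.W402.FK.rks _ _ _ _ _ (Pool.Agent.TH639.SL.disc_tw (hS t ht).1 hE)
    (Pool.Agent.TH639.SL.roots_tw he (D.eval t)) h2

end Pool.Agent.Results.MP_788af2_nt.TwistsInAllWindows
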