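import Mathlib
import Pool.Agent.V1166.WI.Sel2
import Pool.Agent.V1166.WI.Ell
import Pool.Agent.TH841.PT.Fam3
import Pool.Agent.Results.MP_788af2_nt.BinaryFormFamilies

/-!
# The ranks of all the elliptic curves near random points of the plane of parameters

Let `v n ≥ 1` be any sequence of real numbers, for example `2 ^ n` or `2 ^ 2 ^ n`. There is a set of
measure zero such that the following holds for all the vectors `α` of the plane outside of it, for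
all `C` with `n ^ C ≤ v n` for large `n` and all `ε > 0`.

* Let `d ≠ 0`. If `n` is large, then for ALL the integer points `(a, b)` of the square with centre
  `v n * α` and side `2 n ^ C`, `a b (a - b) ≠ 0`, the curve `y² = x (x - d a) (x - d b)` satisfies
  `(2 ^ rank * #Ш[2 ^ k] ^ (1 / k)) ^ 2 ≤ n ^ (2 C + 1 + ε)` for all `k ≥ 1`. So its rank is at most
  `(C + 1 / 2 + ε) log₂ n`.
* The families of `BinaryFormFamilies`: if `n` is large, then for ALL the pairs `(u, v)` of coprime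
  integers of this square the curve `y² = x (x - F₀(u, v)) (x - F₁(u, v))` satisfies
  `2 ^ rank ≤ n ^ (2 C + 1 + ε)`.

Every elliptic curve over `ℚ` with full rational 2-torsion is isomorphic to one of the curves
`y² = x (x - a) (x - b)`. The bounds depend on the index `n` only, however fast the heights grow.
-/

set_option autoImplicit false

namespace Pool.Agent.Results.MP_788af2_nt.WindowsOfCurves

open MeasureTheory Filter Finset

open Pool.Agent.TH841.SH.D (ShaTor)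
open Pool.Agent.Results.MP_788af2_nt.BinaryFormFamilies (E F)

/-- the rank of the Mordell-Weil group -/
noncomputable def rk (W : WeierstrassCurve ℚ) : ℕ := Pool.Agent.TH841.SH.D.rk W

/-- both coordinates of the integer point `t` are at distance at most `n ^ C` from those of `v n * α` -/
def Near (v : ℕ → ℝ) (α : ℝ × ℝ) (C n : ℕ) (t : ℤ × ℤ) : Prop :=
  |(t.1 : ℝ) - α.1 * v n| ≤ (n : ℝ) ^ C ∧ |(t.2 : ℝ) - α.2 * v n| ≤ (n : ℝ) ^ C

/-- **Theorem.** Let `v n ≥ 1` be a sequence of real numbers. For almost all the vectors `α` of the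
plane, all `C` such that `n ^ C ≤ v n` for large `n` and all `ε > 0`: (1) for all `d ≠ 0` and all
large `n`, all the integer points `(a, b)` near `v n * α` with `a b (a - b) ≠ 0` and all `k ≥ 1`, the
group `Ш[2 ^ k]` of `y² = x (x - d a) (x - d b)` is finite and
`(2 ^ rank * #Ш[2 ^ k] ^ (1 / k)) ^ 2 ≤ n ^ (2 C + 1 + ε)`; (2) for all binary forms `F_k`, a constant
`a k ≠ 0` times a product of odd powers `m k i` of an even number of linear forms, these linear forms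
being pairwise non-proportional and `F_0 - F_1 = F_2`, for all large `n` and all the coprime `(u, v)`
near `v n * α` with `F_k (u, v) ≠ 0`, the curve `y² = x (x - F_0 (u, v)) (x - F_1 (u, v))` satisfies
`2 ^ rank ≤ n ^ (2 C + 1 + ε)`. -/
theorem result (v : ℕ → ℝ) (hv : ∀ n, 1 ≤ v n) : ∀ᵐ α : ℝ × ℝ,
    ∀ (C : ℕ) (ε : ℝ), 0 < ε → (∀ᶠ n : ℕ in atTop, (n : ℝ) ^ C ≤ v n) →
      (∀ d : ℤ, d ≠ 0 → ∀ᶠ n : ℕ in atTop, ∀ t : ℤ × ℤ, Near v α C n t →
        t.1 ≠ 0 → t.2 ≠ 0 → t.1 ≠ t.2 → ∀ k : ℕ, 1 ≤ k →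
          Finite (ShaTor (E (d * t.1) (d * t.2)) (2 ^ k)) ∧
          ((2 : ℝ) ^ rk (E (d * t.1) (d * t.2)) *
            (Nat.card (ShaTor (E (d * t.1) (d * t.2)) (2 ^ k)) : ℝ) ^ ((1 : ℝ) / k)) ^ 2 ≤
              (n : ℝ) ^ (2 * (C : ℝ) + 1 + ε)) ∧
      ∀ (N : ℕ) (l : Fin 3 × Fin N → ℤ × ℤ) (m : Fin 3 × Fin N → ℕ) (a : Fin 3 → ℤ), Even N →
        (∀ j, Odd (m j)) → (∀ k, a k ≠ 0) →
        (∀ i j, i ≠ j → (l i).1 * (l j).2 ≠ (l j).1 * (l i).2) →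
        (∀ x y : ℤ, F l m a 0 x y - F l m a 1 x y = F l m a 2 x y) →
        ∀ᶠ n : ℕ in atTop, ∀ t : ℤ × ℤ, Near v α C n t → IsCoprime t.1 t.2 →
          (∀ k, F l m a k t.1 t.2 ≠ 0) →
            (2 : ℝ) ^ rk (E (F l m a 0 t.1 t.2) (F l m a 1 t.1 t.2)) ≤
              (n : ℝ) ^ (2 * (C : ℝ) + 1 + ε) := by
  classical
  have hae : ∀ {H : Prop} {Q : ℝ × ℝ → Prop}, (H → ∀ᵐ α : ℝ × ℝ, Q α) →
      ∀ᵐ α : ℝ × ℝ, H → Q α := by
    intro H Q h
    by_cases hH : H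
    · filter_upwards [h hH] with α hα _
      exact hα
    · exact Eventually.of_forall fun α hα => absurd hα hH
  have h1 : ∀ d : ℤ, ∀ᵐ α : ℝ × ℝ, d ≠ 0 → ∀ (C : ℕ) (ε : ℝ), 0 < ε →
      (∀ᶠ n : ℕ in atTop, (n : ℝ) ^ C ≤ v n) →
      ∀ᶠ n : ℕ in atTop, ∀ t : ℤ × ℤ, |(t.1 : ℝ) - α.1 * v n| ≤ (n : ℝ) ^ C →
        |(t.2 : ℝ) - α.2 * v n| ≤ (n : ℝ) ^ C → (t.1 ≠ 0 ∧ t.2 ≠ 0 ∧ t.1 ≠ t.2) →
        ((Pool.Agent.W307.SE.Sel (d * t.1) (d * t.2)).ncard : ℝ) ^ 2 ≤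
          (n : ℝ) ^ (2 * (C : ℝ) + 1 + ε) := fun d =>
    hae fun hd => Pool.Agent.V1166.WI.averageP (Pool.Agent.V1166.WI.avg_pairs d hd) hv
  have h2 : ∀ (N : ℕ) (l : Fin 3 × Fin N → ℤ × ℤ) (m : Fin 3 × Fin N → ℕ) (a : Fin 3 → ℤ),
      ∀ᵐ α : ℝ × ℝ, (Even N ∧ (∀ j, Odd (m j)) ∧ (∀ k, a k ≠ 0) ∧
        (∀ i j, i ≠ j → (l i).1 * (l j).2 ≠ (l j).1 * (l i).2) ∧
        (∀ x y : ℤ, F l m a 0 x y - F l m a 1 x y = F l m a 2 x y)) → ∀ (C : ℕ) (ε : ℝ), 0 < ε →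
      (∀ᶠ n : ℕ in atTop, (n : ℝ) ^ C ≤ v n) →
      ∀ᶠ n : ℕ in atTop, ∀ t : ℤ × ℤ, |(t.1 : ℝ) - α.1 * v n| ≤ (n : ℝ) ^ C →
        |(t.2 : ℝ) - α.2 * v n| ≤ (n : ℝ) ^ C →
        (IsCoprime t.1 t.2 ∧ ∀ k, F l m a k t.1 t.2 ≠ 0) →
        (2 : ℝ) ^ rk (E (F l m a 0 t.1 t.2) (F l m a 1 t.1 t.2)) ≤
          (n : ℝ) ^ (2 * (C : ℝ) + 1 + ε) := by
    intro N l m a
    refine hae fun ⟨hN, hm, ha, hl, hF⟩ => ?_
    refine Pool.Agent.V1166.WI.averageP (P := fun t => IsCoprime t.1 t.2 ∧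
      ∀ k, F l m a k t.1 t.2 ≠ 0) (w := fun t => (2 : ℝ) ^ rk (E (F l m a 0 t.1 t.2)
        (F l m a 1 t.1 t.2))) ?_ hv
    obtain ⟨K, hK⟩ := BinaryFormFamilies.result N hN l m hm a ha hl hF 1
    refine ⟨9 * |K|, fun S T hT hS => ?_⟩
    have h3 := hK (2 * T + 1) (-(T : ℤ) - 1) (-(T : ℤ) - 1) (by omega) (by rw [pow_one]; omega)
      (by rw [pow_one]; omega)
    refine le_trans ?_ (h3.trans ?_)
    · refine sum_le_sum_of_subset_of_nonneg ?_ fun _ _ _ => by positivity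
      intro t ht
      obtain ⟨h4, h5, h6⟩ := hS t ht
      rw [abs_le] at h4 h5
      refine mem_filter.2 ⟨mem_product.2 ⟨mem_Ioc.2 ?_, mem_Ioc.2 ?_⟩, h6⟩
      · push_cast
        omega
      · push_cast
        omega
    · have h4 : ((2 * T + 1 : ℕ) : ℝ) ≤ 3 * T := by
        have : 2 * T + 1 ≤ 3 * T := by omega
        exact_mod_cast this
      calc K * ((2 * T + 1 : ℕ) : ℝ) ^ 2 ≤ |K| * (3 * T) ^ 2 :=
            mul_le_mul (le_abs_self K) (pow_le_pow_left₀ (by positivity) h4 2) (by positivity)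
              (abs_nonneg _)
        _ = 9 * |K| * (T : ℝ) ^ 2 := by ring
  have h2' := ae_all_iff.2 fun N => ae_all_iff.2 fun l => ae_all_iff.2 fun m =>
    ae_all_iff.2 fun a => h2 N l m a
  filter_upwards [ae_all_iff.2 h1, h2'] with α hα1 hα2 C ε hε hC
  refine ⟨fun d hd => ?_, fun N l m a hN hm ha hl hF => ?_⟩
  · filter_upwards [hα1 d hd C ε hε hC] with n hn t ht ht1 ht2 ht3 k hk
    have hb := Pool.Agent.TH841.PT.bd_EQ (mul_ne_zero hd ht1) (mul_ne_zero hd ht2)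
      (fun h => ht3 (mul_left_cancel₀ hd h))
    refine ⟨hb.fin k, le_trans ?_ (hn t ht.1 ht.2 ⟨ht1, ht2, ht3⟩)⟩
    exact pow_le_pow_left₀ (Pool.Agent.TH841.SH.wt_nonneg _ _) (hb.wt_le hk) 2
  · filter_upwards [hα2 N l m a ⟨hN, hm, ha, hl, hF⟩ C ε hε hC] with n hn t ht ht1 ht2
    exact hn t ht.1 ht.2 ⟨ht1, ht2⟩

end Pool.Agent.Results.MP_788af2_nt.WindowsOfCurves
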